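import Pool.Agent.R441.C397

/-!
The conjectured values of `S_p` at the primitive twelfth roots of unity through the least positive
solution of `3x² + 1 = py²` are false: all four identities fail for `p = 397`, where the least
solution is `(23, 2)`.
-/

set_option autoImplicit false

namespace Pool.Agent.Results.MP_8a3680_nt.LeastSolutionFails

open Complex Real

/-- `S_p(x) = ∏_{k=1}^{(p-1)/2} (x - e^{2πik²/p})` -/
noncomputable def S (p : ℕ) (x : ℂ) : ℂ :=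
  ∏ k ∈ Finset.Icc 1 ((p - 1) / 2), (x - Complex.exp (2 * π * I * (k : ℂ) ^ 2 / p))

/-- `N_ε(p)`: the number of integers `1 ≤ k < p/4` with `(k/p) = ε` -/
def N (ε : ℤ) (p : ℕ) : ℕ :=
  ((Finset.range p).filter (fun k : ℕ => 1 ≤ k ∧ 4 * k < p ∧ jacobiSym k p = ε)).card

/-- `(x, y)` is the least solution in positive integers of `3x² + 1 = py²` -/
def IsLeastSol (p x y : ℕ) : Prop :=
  (0 < x ∧ 0 < y ∧ 3 * x ^ 2 + 1 = p * y ^ 2) ∧
  ∀ x' y' : ℕ, 0 < x' → 0 < y' → 3 * x' ^ 2 + 1 = p * y' ^ 2 → x ≤ x' ∧ y ≤ y'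

/-- `e^{2πi/12}` -/
noncomputable def t : ℂ := Complex.exp (2 * π * I / 12)

/-- `e^{2πi/4764}` -/
noncomputable def z : ℂ := Complex.exp (2 * π * I / 4764)

theorem prim_z : IsPrimitiveRoot z 4764 := by
  have := Complex.isPrimitiveRoot_exp 4764 (by norm_num)
  unfold z
  convert this using 2
  norm_num

theorem z_pow : z ^ 397 = t := by
  unfold z t
  rw [← Complex.exp_nat_mul]
  congr 1
  push_cast
  ring

theorem z_sq (k : ℕ) : z ^ (12 * k ^ 2) = Complex.exp (2 * π * I * (k : ℂ) ^ 2 / (397 : ℕ)) := by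
  unfold z
  rw [← Complex.exp_nat_mul]
  congr 1
  push_cast
  ring

theorem t_pow : t ^ 12 = 1 := by
  unfold t
  rw [← Complex.exp_nat_mul, Complex.exp_eq_one_iff]
  exact ⟨1, by push_cast; ring⟩

theorem t_val : t = (√3 / 2 : ℝ) + (1 / 2 : ℝ) * I := by
  unfold t
  have e : (2 * π * I / 12 : ℂ) = ((π / 6 : ℝ) : ℂ) * I := by push_cast; ring
  rw [e, Complex.exp_mul_I, ← Complex.ofReal_cos, ← Complex.ofReal_sin, Real.cos_pi_div_six,
    Real.sin_pi_div_six]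

theorem s3 : ((√3 : ℝ) : ℂ) ^ 2 = 3 := by
  rw [← Complex.ofReal_pow, Real.sq_sqrt (by positivity)]
  norm_num

theorem t_two : t ^ 2 = 1 / 2 + (√3 / 2 : ℝ) * I := by
  rw [t_val]
  have h := s3
  have hI := Complex.I_sq
  push_cast
  linear_combination (1 / 4 : ℂ) * h + (1 / 4 : ℂ) * hI

theorem t_four : t ^ 4 = -1 / 2 + (√3 / 2 : ℝ) * I := by
  have h1 : t ^ 4 = (t ^ 2) ^ 2 := by ring
  rw [h1, t_two]
  have h := s3
  have hI := Complex.I_sq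
  push_cast
  linear_combination (1 / 4 : ℂ) * ((√3 : ℝ) : ℂ) ^ 2 * hI - (1 / 4 : ℂ) * h

theorem sqrt_three : ((√3 : ℝ) : ℂ) * I = t ^ 4 - t ^ 8 := by
  have h1 : t ^ 8 = (t ^ 4) ^ 2 := by ring
  rw [h1, t_four]
  have h := s3
  have hI := Complex.I_sq
  push_cast
  linear_combination (1 / 4 : ℂ) * ((√3 : ℝ) : ℂ) ^ 2 * hI - (1 / 4 : ℂ) * h

/-- the exponent `b ≡ a (mod 12)`, `b ≡ 1 (mod 397)` -/
theorem S_gen (a b c : ℕ) (h1 : b = 397 * c + 1) (h2 : b % 12 = a % 12) :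
    S 397 (t ^ a) = ∏ k ∈ Finset.Icc 1 198, ((z ^ b) ^ 397 - (z ^ b) ^ (12 * k ^ 2)) := by
  unfold S
  refine Finset.prod_congr rfl fun k _ => ?_
  have e1 : (z ^ b) ^ 397 = t ^ a := by
    rw [← pow_mul, mul_comm, pow_mul, z_pow, pow_eq_pow_mod b t_pow, h2, ← pow_eq_pow_mod a t_pow]
  have e2 : (z ^ b) ^ (12 * k ^ 2) = z ^ (12 * k ^ 2) := by
    have : (z ^ b) ^ (12 * k ^ 2) = (z ^ 4764) ^ (c * k ^ 2) * z ^ (12 * k ^ 2) := by
      rw [← pow_mul, ← pow_mul, ← pow_add, h1]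
      congr 1
      ring
    rw [this, prim_z.pow_eq_one, one_pow, one_mul]
  rw [e1, e2, z_sq]

theorem prim_pow (b : ℕ) (hb : Nat.Coprime b 4764) : IsPrimitiveRoot (z ^ b) 4764 :=
  prim_z.pow_of_coprime b hb

theorem key (a b c : ℕ) (h1 : b = 397 * c + 1) (h2 : b % 12 = a % 12) (hb : Nat.Coprime b 4764)
    {s : ℤ} (hs : s = 23 ∨ s = -23) :
    (S 397 (t ^ a) - s * (t ^ (4 * a) - t ^ (8 * a))) ^ 2 ≠ -1588 := by
  have := Pool.Agent.R441.main397 (prim_pow b hb) hs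
  rw [S_gen a b c h1 h2]
  have e1 : (z ^ b) ^ 397 = t ^ a := by
    rw [← pow_mul, mul_comm, pow_mul, z_pow, pow_eq_pow_mod b t_pow, h2, ← pow_eq_pow_mod a t_pow]
  have e2 : (z ^ b) ^ 1588 = t ^ (4 * a) := by
    rw [show (1588 : ℕ) = 397 * 4 by norm_num, pow_mul, e1, ← pow_mul, mul_comm]
  have e3 : (z ^ b) ^ 3176 = t ^ (8 * a) := by
    rw [show (3176 : ℕ) = 397 * 8 by norm_num, pow_mul, e1, ← pow_mul, mul_comm]
  rw [e2, e3] at this
  exact this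

theorem leastSol : IsLeastSol 397 23 2 := by
  unfold IsLeastSol
  refine ⟨by norm_num, ?_⟩
  intro x y hx hy h
  have hy2 : 2 ≤ y := by
    by_contra hlt
    have h1 : y = 1 := by omega
    subst h1
    have h2 : x < 12 := by
      by_contra h3
      have : 12 ≤ x := by omega
      nlinarith
    interval_cases x <;> norm_num at h
  refine ⟨?_, hy2⟩
  by_contra h3
  have h4 : x ≤ 22 := by omega
  nlinarith

theorem sqrt397 : ((√(397 : ℕ) : ℝ) : ℂ) ^ 2 = 397 := by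
  rw [← Complex.ofReal_pow, Real.sq_sqrt (by positivity)]
  norm_num

/-- none of the values `± i (23 √3 ± 2 √397)` is taken at `e^{2πia/12}` -/
theorem fail (a b c : ℕ) (h1 : b = 397 * c + 1) (h2 : b % 12 = a % 12) (hb : Nat.Coprime b 4764)
    (v : ℤ) (hv : v = 1 ∨ v = -1) (hva : t ^ (4 * a) - t ^ (8 * a) = v * (t ^ 4 - t ^ 8))
    (u w : ℤ) (hu : u = 1 ∨ u = -1) (hw : w = 1 ∨ w = -1) :
    S 397 (t ^ a) ≠ I * u * ((23 : ℕ) * √3 + w * ((2 : ℕ) * √(397 : ℕ)) : ℝ) := by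
  intro h
  have hs : (23 * u * v : ℤ) = 23 ∨ (23 * u * v : ℤ) = -23 := by
    rcases hu with rfl | rfl <;> rcases hv with rfl | rfl <;> norm_num
  refine key a b c h1 h2 hb hs ?_
  have e1 := sqrt_three
  have e2 := sqrt397
  have h4 : (u : ℂ) ^ 2 = 1 := by rcases hu with rfl | rfl <;> norm_num
  have h5 : (v : ℂ) ^ 2 = 1 := by rcases hv with rfl | rfl <;> norm_num
  have h6 : (w : ℂ) ^ 2 = 1 := by rcases hw with rfl | rfl <;> norm_num
  rw [h, hva]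
  have h7 : I * (u : ℂ) * (((23 : ℕ) * √3 + w * ((2 : ℕ) * √(397 : ℕ)) : ℝ) : ℂ)
      - ((23 * u * v : ℤ) : ℂ) * (v * (t ^ 4 - t ^ 8)) = 2 * u * w * I * ((√(397 : ℕ) : ℝ) : ℂ) := by
    push_cast
    linear_combination (23 * u : ℂ) * (v : ℂ) ^ 2 * e1 + (-23 * I * u * (√3 : ℝ) : ℂ) * h5
  rw [h7]
  have : (2 * (u : ℂ) * w * I * ((√(397 : ℕ) : ℝ) : ℂ)) ^ 2 =
      4 * u ^ 2 * w ^ 2 * I ^ 2 * ((√(397 : ℕ) : ℝ) : ℂ) ^ 2 := by
    ring
  rw [this, e2, h4, h6, Complex.I_sq]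
  norm_num

/-- For the prime `p = 397 ≡ 13 (mod 24)` all four identities fail. -/
theorem result : ∃ p x y : ℕ, (p = 397 ∧ x = 23 ∧ y = 2) ∧ p.Prime ∧ p % 24 = 13 ∧
    IsLeastSol p x y ∧
    S p (Complex.exp (2 * π * I / 12)) ≠
      I * (-1) ^ ((p - 5) / 8 + N (-1) p) * (x * √3 - y * √p : ℝ) ∧
    S p (Complex.exp (-(2 * π * I / 12))) ≠
      I * (-1) ^ ((p - 5) / 8 + N 1 p) * (x * √3 - y * √p : ℝ) ∧
    S p (Complex.exp (2 * π * I * (5 / 12))) ≠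
      I * (-1) ^ ((p - 5) / 8 + N 1 p) * (x * √3 + y * √p : ℝ) ∧
    S p (Complex.exp (-(2 * π * I * (5 / 12)))) ≠
      I * (-1) ^ ((p - 5) / 8 + N (-1) p) * (x * √3 + y * √p : ℝ) := by
  refine ⟨397, 23, 2, ⟨rfl, rfl, rfl⟩, by norm_num, by norm_num, leastSol, ?_⟩
  have t12 := t_pow
  have f1 : Complex.exp (2 * π * I / 12) = t ^ 1 := by rw [pow_one]; rfl
  have f11 : Complex.exp (-(2 * π * I / 12)) = t ^ 11 := by
    have h0 : Complex.exp (-(2 * π * I / 12)) * t = 1 := by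
      unfold t
      rw [← Complex.exp_add, neg_add_cancel, Complex.exp_zero]
    calc _ = Complex.exp (-(2 * π * I / 12)) * t ^ 12 := by rw [t12, mul_one]
      _ = (Complex.exp (-(2 * π * I / 12)) * t) * t ^ 11 := by ring
      _ = _ := by rw [h0, one_mul]
  have f5 : Complex.exp (2 * π * I * (5 / 12)) = t ^ 5 := by
    unfold t
    rw [← Complex.exp_nat_mul]
    congr 1
    push_cast
    ring
  have f7 : Complex.exp (-(2 * π * I * (5 / 12))) = t ^ 7 := by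
    have h0 : Complex.exp (-(2 * π * I * (5 / 12))) * t ^ 5 = 1 := by
      rw [← f5, ← Complex.exp_add, neg_add_cancel, Complex.exp_zero]
    calc _ = Complex.exp (-(2 * π * I * (5 / 12))) * t ^ 12 := by rw [t12, mul_one]
      _ = (Complex.exp (-(2 * π * I * (5 / 12))) * t ^ 5) * t ^ 7 := by ring
      _ = _ := by rw [h0, one_mul]
  have sg : ∀ n : ℕ, ∃ u : ℤ, (u = 1 ∨ u = -1) ∧ ((-1 : ℂ) ^ n) = u := by
    intro n
    exact ⟨(-1) ^ n, neg_one_pow_eq_or ℤ n, by push_cast; rfl⟩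
  obtain ⟨u1, hu1, hu1'⟩ := sg ((397 - 5) / 8 + N (-1) 397)
  obtain ⟨u2, hu2, hu2'⟩ := sg ((397 - 5) / 8 + N 1 397)
  have hm : (((23 : ℕ) * √3 - (2 : ℕ) * √(397 : ℕ) : ℝ)) =
      ((23 : ℕ) * √3 + (-1 : ℤ) * ((2 : ℕ) * √(397 : ℕ)) : ℝ) := by push_cast; ring
  have hp : (((23 : ℕ) * √3 + (2 : ℕ) * √(397 : ℕ) : ℝ)) =
      ((23 : ℕ) * √3 + (1 : ℤ) * ((2 : ℕ) * √(397 : ℕ)) : ℝ) := by push_cast; ring
  rw [f1, f11, f5, f7, hu1', hu2', hm, hp]
  have p16 : t ^ (4 * 5) = t ^ 8 := by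
    rw [pow_eq_pow_mod (4 * 5) t12]
  have p40 : t ^ (8 * 5) = t ^ 4 := by
    rw [pow_eq_pow_mod (8 * 5) t12]
  have p28 : t ^ (4 * 7) = t ^ 4 := by
    rw [pow_eq_pow_mod (4 * 7) t12]
  have p56 : t ^ (8 * 7) = t ^ 8 := by
    rw [pow_eq_pow_mod (8 * 7) t12]
  have p44 : t ^ (4 * 11) = t ^ 8 := by
    rw [pow_eq_pow_mod (4 * 11) t12]
  have p88 : t ^ (8 * 11) = t ^ 4 := by
    rw [pow_eq_pow_mod (8 * 11) t12]
  refine ⟨?_, ?_, ?_, ?_⟩
  · exact fail 1 1 0 (by norm_num) (by norm_num) (by norm_num) 1 (Or.inl rfl)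
      (by norm_num) u1 (-1) hu1 (Or.inr rfl)
  · exact fail 11 3971 10 (by norm_num) (by norm_num) (by norm_num) (-1) (Or.inr rfl)
      (by rw [p44, p88]; push_cast; ring) u2 (-1) hu2 (Or.inr rfl)
  · exact fail 5 1589 4 (by norm_num) (by norm_num) (by norm_num) (-1) (Or.inr rfl)
      (by rw [p16, p40]; push_cast; ring) u2 1 hu2 (Or.inl rfl)
  · exact fail 7 2383 6 (by norm_num) (by norm_num) (by norm_num) 1 (Or.inl rfl)
      (by rw [p28, p56]; push_cast; ring) u1 1 hu1 (Or.inl rfl)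

end Pool.Agent.Results.MP_8a3680_nt.LeastSolutionFails
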